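import Mathlib

/-!
# Entropy of abelian closures

There is a uniformly recurrent, aperiodic, non-Sturmian binary word whose abelian closure has
topological entropy `0`.
-/

set_option autoImplicit false

open Filter Topology

namespace Pool.Agent.Results.MP_1706f7_co.ZeroEntropy

/-! ### Definitions -/

/-- The factor `x_i x_{i+1} ⋯ x_{i+n-1}` of the infinite binary word `x`. -/
def fac (x : ℕ → Bool) (i n : ℕ) : Fin n → Bool := fun k => x (i + k)

/-- The number of letters `1` of a finite binary word. -/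
def ones {n : ℕ} (v : Fin n → Bool) : ℕ := (Finset.univ.filter fun k => v k = true).card

/-- The set of factors of length `n` of `x`. -/
def Lang (x : ℕ → Bool) (n : ℕ) : Set (Fin n → Bool) := Set.range fun i => fac x i n

/-- Every factor of `x` occurs with bounded gaps. -/
def UniformlyRecurrent (x : ℕ → Bool) : Prop :=
  ∀ i n : ℕ, ∃ R : ℕ, ∀ t : ℕ, ∃ j : ℕ, t ≤ j ∧ j ≤ t + R ∧ fac x j n = fac x i n

/-- `x` is not eventually periodic. -/
def Aperiodic (x : ℕ → Bool) : Prop :=
  ¬ ∃ p N : ℕ, 0 < p ∧ ∀ m : ℕ, N ≤ m → x (m + p) = x m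

/-- `x` is aperiodic and has exactly `n + 1` factors of each length `n`. -/
def Sturmian (x : ℕ → Bool) : Prop := Aperiodic x ∧ ∀ n : ℕ, (Lang x n).ncard = n + 1

/-- The abelian closure: every factor of `y` is abelian equivalent to some factor of `x`. -/
def AbClosure (x : ℕ → Bool) : Set (ℕ → Bool) :=
  {y | ∀ i n : ℕ, ∃ j : ℕ, ones (fac y i n) = ones (fac x j n)}

/-- The blocks of length `n` occurring in some element of `X`. -/
def SubLang (X : Set (ℕ → Bool)) (n : ℕ) : Set (Fin n → Bool) :=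
  {w | ∃ y ∈ X, ∃ i : ℕ, w = fac y i n}

/-- `h(X) = h`, where `h(X) = lim (1/n) log |L_n(X)|`. -/
def HasEntropy (X : Set (ℕ → Bool)) (h : ℝ) : Prop :=
  Tendsto (fun n : ℕ => Real.log ((SubLang X n).ncard : ℝ) / n) atTop (𝓝 h)

/-- `x` has letter frequency `α`. -/
def HasFreq (x : ℕ → Bool) (α : ℝ) : Prop :=
  Tendsto (fun n : ℕ => ((ones (fac x 0 n) : ℕ) : ℝ) / n) atTop (𝓝 α)

/-! ### Small fractional parts -/

lemma exists_small {β η : ℝ} (hβ : Irrational β) (hη : 0 < η) :
    (∃ q : ℕ, 0 < q ∧ 0 < Int.fract ((q : ℝ) * β) ∧ Int.fract ((q : ℝ) * β) < η) ∧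
    (∃ q : ℕ, 0 < q ∧ 1 - η < Int.fract ((q : ℝ) * β)) := by
  obtain ⟨M, hM⟩ := exists_nat_gt (1 / min η (1 / 2))
  have hmin : 0 < min η (1 / 2) := lt_min hη (by norm_num)
  have hM0 : 0 < M := by
    have h1 : (0 : ℝ) < M := lt_trans (by positivity) hM
    exact_mod_cast h1
  obtain ⟨p, q, hq, -, hpq⟩ := Real.exists_int_int_abs_mul_sub_le β hM0
  have hsmall : 1 / ((M : ℝ) + 1) < min η (1 / 2) := by
    rw [div_lt_comm₀ (by positivity) hmin]
    linarith
  have hlt : |(q : ℝ) * β - p| < min η (1 / 2) := lt_of_le_of_lt hpq hsmall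
  have hlt1 : |(q : ℝ) * β - p| < η := lt_of_lt_of_le hlt (min_le_left _ _)
  have hlt2 : |(q : ℝ) * β - p| < 1 / 2 := lt_of_lt_of_le hlt (min_le_right _ _)
  obtain ⟨Q, rfl⟩ : ∃ Q : ℕ, q = Q := ⟨q.toNat, by omega⟩
  have hQ : 0 < Q := by exact_mod_cast hq
  set e : ℝ := ((Q : ℤ) : ℝ) * β - p with he
  have hirr : ∀ k : ℕ, 0 < k → ∀ m : ℤ, (k : ℝ) * e ≠ m := by
    intro k hk m hm
    have h1 : Irrational (((k * Q : ℕ) : ℝ) * β) := by
      apply hβ.natCast_mul
      exact (Nat.mul_pos hk hQ).ne'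
    apply h1
    refine ⟨((m + k * p : ℤ) : ℚ), ?_⟩
    push_cast
    rw [he] at hm
    push_cast at hm
    linarith
  have he0 : e ≠ 0 := by
    have := hirr 1 one_pos 0
    simpa using this
  have hmul : ∀ k : ℕ, ((k * Q : ℕ) : ℝ) * β = k * e + ((k * p : ℤ) : ℝ) := by
    intro k
    rw [he]; push_cast; ring
  rcases lt_or_gt_of_ne he0 with hneg | hpos
  · -- e < 0
    have hd : 0 < -e := by linarith
    have habs : |e| = -e := abs_of_neg hneg
    rw [habs] at hlt1 hlt2
    constructor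
    · set k := ⌊1 / (-e)⌋₊ with hk
      have hk1 : (k : ℝ) ≤ 1 / (-e) := Nat.floor_le (by positivity)
      have hk2 : 1 / (-e) < k + 1 := Nat.lt_floor_add_one _
      have hkpos : 0 < k := by
        rw [hk, Nat.floor_pos, le_div_iff₀ hd]; linarith
      have h3 : (k : ℝ) * (-e) ≤ 1 := by rwa [le_div_iff₀ hd] at hk1
      have h4 : 1 < (k + 1) * (-e) := by rwa [div_lt_iff₀ hd] at hk2
      have h5 : (k : ℝ) * e ≠ -1 := by
        have := hirr k hkpos (-1); push_cast at this; exact this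
      have h6 : (k : ℝ) * (-e) < 1 := by
        rcases lt_or_eq_of_le h3 with h | h
        · exact h
        · exact absurd (by linarith) h5
      have hfr : Int.fract (((k * Q : ℕ) : ℝ) * β) = 1 + k * e := by
        rw [hmul, Int.fract_add_intCast, Int.fract_eq_iff]
        refine ⟨by linarith, by nlinarith, -1, by push_cast; ring⟩
      refine ⟨k * Q, Nat.mul_pos hkpos hQ, ?_, ?_⟩
      · rw [hfr]; linarith
      · rw [hfr]; nlinarith
    · refine ⟨Q, hQ, ?_⟩
      have hfr : Int.fract ((Q : ℝ) * β) = 1 + e := by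
        have := hmul 1
        rw [one_mul] at this
        rw [this, Int.fract_add_intCast, Int.fract_eq_iff]
        refine ⟨by push_cast; linarith, by push_cast; linarith, -1, by push_cast; ring⟩
      rw [hfr]; linarith
  · have habs : |e| = e := abs_of_pos hpos
    rw [habs] at hlt1 hlt2
    constructor
    · refine ⟨Q, hQ, ?_⟩
      have hfr : Int.fract ((Q : ℝ) * β) = e := by
        have := hmul 1
        rw [one_mul] at this
        rw [this, Int.fract_add_intCast, Int.fract_eq_iff]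
        refine ⟨by linarith, by linarith, 0, by push_cast; ring⟩
      rw [hfr]; exact ⟨hpos, hlt1⟩
    · set k := ⌊1 / e⌋₊ with hk
      have hk1 : (k : ℝ) ≤ 1 / e := Nat.floor_le (by positivity)
      have hk2 : 1 / e < k + 1 := Nat.lt_floor_add_one _
      have hkpos : 0 < k := by
        rw [hk, Nat.floor_pos, le_div_iff₀ hpos]; linarith
      have h3 : (k : ℝ) * e ≤ 1 := by rwa [le_div_iff₀ hpos] at hk1
      have h4 : 1 < (k + 1) * e := by rwa [div_lt_iff₀ hpos] at hk2
      have h5 : (k : ℝ) * e ≠ 1 := by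
        have := hirr k hkpos 1; push_cast at this; exact this
      have h6 : (k : ℝ) * e < 1 := lt_of_le_of_ne h3 h5
      have hfr : Int.fract (((k * Q : ℕ) : ℝ) * β) = k * e := by
        rw [hmul, Int.fract_add_intCast, Int.fract_eq_iff]
        refine ⟨by positivity, h6, 0, by push_cast; ring⟩
      refine ⟨k * Q, Nat.mul_pos hkpos hQ, ?_⟩
      rw [hfr]; nlinarith

/-! ### The word -/

/-- The slope. -/
noncomputable def al : ℝ := Real.sqrt 2 - 1

lemma al_irr : Irrational al := by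
  unfold al
  exact_mod_cast irrational_sqrt_two.sub_intCast 1

lemma al_bd : (1.4142 - 1 : ℝ) < al ∧ al < 1.41422 - 1 := by
  unfold al
  have h1 : (1.4142 : ℝ) < Real.sqrt 2 := by
    rw [Real.lt_sqrt (by norm_num)]; norm_num
  have h2 : Real.sqrt 2 < (1.41422 : ℝ) := by
    rw [Real.sqrt_lt' (by norm_num)]; norm_num
  constructor <;> linarith

/-- The perturbation. -/
noncomputable def ph (j : ℕ) : ℝ := if j % 2 = 1 then 2 / 5 else 0

noncomputable def u (j : ℕ) : ℝ := j * al + ph j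

noncomputable def F (j : ℕ) : ℤ := ⌊u j⌋

/-- The word `x_j = ⌊(j+1) α + φ_{j+1}⌋ - ⌊j α + φ_j⌋`. -/
noncomputable def X (j : ℕ) : Bool := decide (F (j + 1) = F j + 1)

lemma ph_even (j m : ℕ) : ph (j + 2 * m) = ph j := by
  unfold ph
  rw [Nat.add_mul_mod_self_left]

lemma u_add_even (j m : ℕ) : u (j + 2 * m) = u j + ((2 * m : ℕ) : ℝ) * al := by
  unfold u
  rw [ph_even]; push_cast; ring

lemma u_succ (j : ℕ) : u j < u (j + 1) ∧ u (j + 1) < u j + 1 := by
  have h := al_bd
  unfold u ph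
  rcases Nat.mod_two_eq_zero_or_one j with h0 | h0
  · have h1 : (j + 1) % 2 = 1 := by omega
    simp only [h0, h1]
    push_cast
    norm_num at h ⊢
    constructor <;> linarith
  · have h1 : (j + 1) % 2 = 0 := by omega
    simp only [h0, h1]
    push_cast
    norm_num at h ⊢
    constructor <;> linarith

lemma F_succ (j : ℕ) : F (j + 1) = F j ∨ F (j + 1) = F j + 1 := by
  have h := u_succ j
  have h1 : F j ≤ F (j + 1) := Int.floor_le_floor h.1.le
  have h2 : F (j + 1) < F j + 2 := by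
    unfold F
    rw [Int.floor_lt]
    push_cast
    have := Int.lt_floor_add_one (u j)
    linarith
  omega

lemma F_succ' (j : ℕ) : F (j + 1) = F j + (if X j = true then 1 else 0) := by
  unfold X
  rcases F_succ j with h | h
  · simp [h]
  · simp [h]

lemma ones_eq_sum (y : ℕ → Bool) (i n : ℕ) :
    ones (fac y i n) = ∑ k ∈ Finset.range n, if y (i + k) = true then 1 else 0 := by
  unfold ones fac
  rw [Finset.card_filter, Finset.sum_range fun k => if y (i + k) = true then 1 else 0]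

lemma ones_X (i n : ℕ) : ((ones (fac X i n) : ℕ) : ℤ) = F (i + n) - F i := by
  rw [ones_eq_sum]
  induction n with
  | zero => simp
  | succ n ih =>
    rw [Finset.sum_range_succ, Nat.cast_add, ih, ← add_assoc, F_succ']
    push_cast
    ring

/-- windows of even length of the word -/
lemma ones_X_even (i m : ℕ) :
    ⌊((2 * m : ℕ) : ℝ) * al⌋ ≤ ((ones (fac X i (2 * m)) : ℕ) : ℤ) ∧
    ((ones (fac X i (2 * m)) : ℕ) : ℤ) ≤ ⌊((2 * m : ℕ) : ℝ) * al⌋ + 1 := by
  rw [ones_X]
  unfold F
  rw [u_add_even]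
  have h1 := Int.le_floor_add (u i) (((2 * m : ℕ) : ℝ) * al)
  have h2 := Int.le_floor_add_floor (u i) (((2 * m : ℕ) : ℝ) * al)
  constructor <;> omega

/-! ### Uniform recurrence -/

lemma exists_gap (i n : ℕ) : ∃ ε : ℝ, 0 < ε ∧ ∀ k ≤ n, Int.fract (u (i + k)) + ε ≤ 1 := by
  induction n with
  | zero =>
    refine ⟨1 - Int.fract (u i), by linarith [Int.fract_lt_one (u i)], fun k hk => ?_⟩
    obtain rfl : k = 0 := by omega
    simp
  | succ n ih =>
    obtain ⟨ε, h1, h2⟩ := ih
    refine ⟨min ε (1 - Int.fract (u (i + (n + 1)))),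
      lt_min h1 (by linarith [Int.fract_lt_one (u (i + (n + 1)))]), fun k hk => ?_⟩
    rcases Nat.lt_or_ge k (n + 1) with h | h
    · have := h2 k (by omega)
      have := min_le_left ε (1 - Int.fract (u (i + (n + 1))))
      linarith
    · obtain rfl : k = n + 1 := by omega
      have := min_le_right ε (1 - Int.fract (u (i + (n + 1))))
      linarith

lemma F_shift {i m k : ℕ} {ε : ℝ} (h1 : Int.fract (u (i + k)) + ε ≤ 1)
    (h2 : Int.fract (((2 * m : ℕ) : ℝ) * al) < ε) :
    F (i + 2 * m + k) = F (i + k) + ⌊((2 * m : ℕ) : ℝ) * al⌋ := by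
  unfold F
  rw [show i + 2 * m + k = i + k + 2 * m by ring, u_add_even]
  rw [Int.floor_eq_iff]
  have h3 := Int.floor_add_fract (u (i + k))
  have h4 := Int.floor_add_fract (((2 * m : ℕ) : ℝ) * al)
  have h5 := Int.fract_nonneg (u (i + k))
  have h6 := Int.fract_nonneg (((2 * m : ℕ) : ℝ) * al)
  push_cast at *
  constructor <;> linarith

lemma uniform : UniformlyRecurrent X := by
  intro i n
  obtain ⟨ε, hε, hgap⟩ := exists_gap i n
  have hβ : Irrational (2 * al) := by
    exact_mod_cast al_irr.natCast_mul (m := 2) (by norm_num)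
  obtain ⟨-, q, hq, hq1⟩ := exists_small hβ hε
  set d : ℝ := 1 - Int.fract ((q : ℝ) * (2 * al)) with hd
  have hd0 : 0 < d := by have := Int.fract_lt_one ((q : ℝ) * (2 * al)); linarith
  have hdε : d < ε := by linarith
  refine ⟨i + 1 + 2 * (q * ⌊1 / d⌋₊), fun t => ?_⟩
  obtain ⟨m0, hm0, hm0'⟩ : ∃ m0, t ≤ 2 * m0 ∧ 2 * m0 ≤ t + 1 := ⟨(t + 1) / 2, by omega, by omega⟩
  set s : ℝ := Int.fract (((2 * m0 : ℕ) : ℝ) * al) with hs
  have hs0 : 0 ≤ s := Int.fract_nonneg _
  have hs1 : s < 1 := Int.fract_lt_one _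
  set k : ℕ := ⌊s / d⌋₊ with hk
  have hk1 : (k : ℝ) ≤ s / d := Nat.floor_le (by positivity)
  have hk2 : s / d < k + 1 := Nat.lt_floor_add_one _
  have hk3 : (k : ℝ) * d ≤ s := by rwa [le_div_iff₀ hd0] at hk1
  have hk4 : s < (k + 1) * d := by rwa [div_lt_iff₀ hd0] at hk2
  have hk5 : k ≤ ⌊1 / d⌋₊ := by
    apply Nat.floor_le_floor
    apply div_le_div_of_nonneg_right hs1.le hd0.le
  have hfr : Int.fract (((2 * (m0 + q * k) : ℕ) : ℝ) * al) = s - k * d := by
    rw [Int.fract_eq_iff]
    refine ⟨by linarith, by nlinarith, ?_⟩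
    refine ⟨⌊((2 * m0 : ℕ) : ℝ) * al⌋ + k * (⌊(q : ℝ) * (2 * al)⌋ + 1), ?_⟩
    have h3 := Int.floor_add_fract ((q : ℝ) * (2 * al))
    have h4 := Int.floor_add_fract (((2 * m0 : ℕ) : ℝ) * al)
    rw [← hs] at h4
    have h5 : (⌊(q : ℝ) * (2 * al)⌋ : ℝ) + 1 = (q : ℝ) * (2 * al) + d := by rw [hd]; linarith
    push_cast at *
    rw [h5]
    linarith
  have hlt : Int.fract (((2 * (m0 + q * k) : ℕ) : ℝ) * al) < ε := by
    rw [hfr]; nlinarith
  refine ⟨i + 2 * (m0 + q * k), by omega, ?_, ?_⟩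
  · have : q * k ≤ q * ⌊1 / d⌋₊ := Nat.mul_le_mul_left q hk5
    omega
  · funext a
    unfold fac
    have ha := a.2
    have e1 := F_shift (hgap a (by omega)) hlt
    have e2 := F_shift (hgap (a + 1) (by omega)) hlt
    unfold X
    rw [show i + 2 * (m0 + q * k) + (a : ℕ) + 1 = i + 2 * (m0 + q * k) + ((a : ℕ) + 1) by ring,
      show i + (a : ℕ) + 1 = i + ((a : ℕ) + 1) by ring, e1, e2]
    congr 1
    apply propext
    constructor <;> intro h <;> omega

/-! ### Frequency and aperiodicity -/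

lemma F_bound (j n : ℕ) : |((F (j + n) - F j : ℤ) : ℝ) - n * al| ≤ 2 := by
  have h1 : (F (j + n) : ℝ) ≤ u (j + n) := Int.floor_le _
  have h2 : u (j + n) < F (j + n) + 1 := Int.lt_floor_add_one _
  have h3 : (F j : ℝ) ≤ u j := Int.floor_le _
  have h4 : u j < F j + 1 := Int.lt_floor_add_one _
  have h5 : ∀ k, 0 ≤ ph k ∧ ph k ≤ 2 / 5 := by
    intro k; unfold ph; split_ifs <;> norm_num
  have h6 := h5 (j + n)
  have h7 := h5 j
  have h8 : u (j + n) = j * al + n * al + ph (j + n) := by unfold u; push_cast; ring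
  have h9 : u j = j * al + ph j := rfl
  rw [abs_le]
  push_cast
  constructor <;> linarith

lemma aper : Aperiodic X := by
  rintro ⟨p, N, hp, h⟩
  have hD : ∀ m, N ≤ m → F (m + p) - F m = F (N + p) - F N := by
    intro m hm
    induction m, hm using Nat.le_induction with
    | base => rfl
    | succ m hm ih =>
      rw [← ih]
      have h1 := F_succ' (m + p)
      have h2 := F_succ' m
      rw [h m hm] at h1
      rw [show m + 1 + p = m + p + 1 by ring, h1, h2]
      ring
  set D := F (N + p) - F N with hDdef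
  have hk : ∀ k : ℕ, F (N + k * p) - F N = k * D := by
    intro k
    induction k with
    | zero => simp
    | succ k ih =>
      have := hD (N + k * p) (by omega)
      rw [show N + (k + 1) * p = N + k * p + p by ring]
      push_cast
      linarith
  have hb : ∀ k : ℕ, |(k : ℝ) * ((D : ℝ) - p * al)| ≤ 2 := by
    intro k
    have := F_bound N (k * p)
    rw [hk k] at this
    push_cast at this
    rwa [show (k : ℝ) * ((D : ℝ) - p * al) = k * D - k * p * al by ring]
  have hz : (D : ℝ) - p * al = 0 := by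
    by_contra hne
    have hpos : 0 < |(D : ℝ) - p * al| := abs_pos.mpr hne
    obtain ⟨k, hk⟩ := exists_nat_gt (2 / |(D : ℝ) - p * al|)
    rw [div_lt_iff₀ hpos] at hk
    have := hb k
    rw [abs_mul, Nat.abs_cast] at this
    linarith
  have hirr : Irrational ((p : ℝ) * al) := al_irr.natCast_mul hp.ne'
  exact hirr ⟨D, by push_cast; linarith⟩

lemma freq : HasFreq X al := by
  unfold HasFreq
  rw [Metric.tendsto_atTop]
  intro ε hε
  obtain ⟨M, hM⟩ := exists_nat_gt (2 / ε)
  refine ⟨M + 1, fun n hn => ?_⟩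
  have hn0 : (0 : ℝ) < n := by
    have : 0 < n := by omega
    exact_mod_cast this
  have h1 := F_bound 0 n
  rw [← ones_X 0 n] at h1
  push_cast at h1
  rw [Real.dist_eq]
  have h2 : ((ones (fac X 0 n) : ℕ) : ℝ) / n - al = ((ones (fac X 0 n) : ℕ) - n * al) / n := by
    field_simp
  rw [h2, abs_div, Nat.abs_cast, div_lt_iff₀ hn0]
  have h3 : (M : ℝ) + 1 ≤ n := by exact_mod_cast hn
  rw [div_lt_iff₀ hε] at hM
  nlinarith

/-! ### Not Sturmian -/

lemma F_val {j : ℕ} {v : ℤ} (h1 : (v : ℝ) ≤ u j) (h2 : u j < v + 1) : F j = v :=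
  Int.floor_eq_iff.mpr ⟨h1, h2⟩

lemma F_vals : F 0 = 0 ∧ F 1 = 0 ∧ F 2 = 0 ∧ F 3 = 1 ∧ F 4 = 1 ∧ F 5 = 2 ∧ F 8 = 3 ∧ F 9 = 4 ∧
    F 10 = 4 ∧ F 11 = 4 ∧ F 12 = 4 := by
  have h := al_bd
  norm_num at h
  obtain ⟨h1, h2⟩ := h
  refine ⟨F_val ?_ ?_, F_val ?_ ?_, F_val ?_ ?_, F_val ?_ ?_, F_val ?_ ?_, F_val ?_ ?_,
    F_val ?_ ?_, F_val ?_ ?_, F_val ?_ ?_, F_val ?_ ?_, F_val ?_ ?_⟩ <;>
  · unfold u ph
    norm_num
    try linarith

lemma not_sturmian : ¬ Sturmian X := by
  rintro ⟨-, h⟩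
  have h3 := h 3
  obtain ⟨f0, f1, f2, f3, f4, f5, f8, f9, f10, f11, f12⟩ := F_vals
  have x0 : X 0 = false := by simp [X, f0, f1]
  have x1 : X 1 = false := by simp [X, f1, f2]
  have x2 : X 2 = true := by simp [X, f2, f3]
  have x3 : X 3 = false := by simp [X, f3, f4]
  have x4 : X 4 = true := by simp [X, f4, f5]
  have x8 : X 8 = true := by simp [X, f8, f9]
  have x9 : X 9 = false := by simp [X, f9, f10]
  have x10 : X 10 = false := by simp [X, f10, f11]
  have x11 : X 11 = false := by simp [X, f11, f12]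
  have hsub : (({![false, false, true], ![false, true, false], ![true, false, true],
      ![true, false, false], ![false, false, false]} : Finset (Fin 3 → Bool)) :
      Set (Fin 3 → Bool)) ⊆ Lang X 3 := by
    intro w hw
    simp only [Finset.coe_insert, Finset.coe_singleton, Set.mem_insert_iff,
      Set.mem_singleton_iff] at hw
    rcases hw with rfl | rfl | rfl | rfl | rfl
    · exact ⟨0, by funext k; fin_cases k <;> simp [fac, x0, x1, x2]⟩
    · exact ⟨1, by funext k; fin_cases k <;> simp [fac, x1, x2, x3]⟩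
    · exact ⟨2, by funext k; fin_cases k <;> simp [fac, x2, x3, x4]⟩
    · exact ⟨8, by funext k; fin_cases k <;> simp [fac, x8, x9, x10]⟩
    · exact ⟨9, by funext k; fin_cases k <;> simp [fac, x9, x10, x11]⟩
  have h5 := Set.ncard_le_ncard hsub (Set.toFinite _)
  rw [h3, Set.ncard_coe_finset] at h5
  revert h5
  decide

/-! ### The entropy -/

/-- prefix sums of `y` -/
def S (y : ℕ → Bool) (j : ℕ) : ℤ := ∑ k ∈ Finset.range j, if y k = true then 1 else 0

lemma S_succ (y : ℕ → Bool) (j : ℕ) : S y (j + 1) = S y j + if y j = true then 1 else 0 := by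
  unfold S; rw [Finset.sum_range_succ]

lemma S_win (y : ℕ → Bool) (i n : ℕ) : ((ones (fac y i n) : ℕ) : ℤ) = S y (i + n) - S y i := by
  rw [ones_eq_sum]
  induction n with
  | zero => simp
  | succ n ih =>
    rw [Finset.sum_range_succ, Nat.cast_add, ih, ← add_assoc, S_succ]
    push_cast
    ring

lemma S_even {y : ℕ → Bool} (hy : y ∈ AbClosure X) (i m : ℕ) :
    ⌊((2 * m : ℕ) : ℝ) * al⌋ ≤ S y (i + 2 * m) - S y i ∧
    S y (i + 2 * m) - S y i ≤ ⌊((2 * m : ℕ) : ℝ) * al⌋ + 1 := by
  obtain ⟨j, hj⟩ := hy i (2 * m)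
  have := ones_X_even j m
  rw [← hj, S_win] at this
  exact this

lemma S_upper {y : ℕ → Bool} (hy : y ∈ AbClosure X) (i N : ℕ) :
    ((S y (i + N) - S y i : ℤ) : ℝ) ≤ N * al + 2 := by
  have hal := al_bd
  obtain ⟨m, hm | hm⟩ : ∃ m, N = 2 * m ∨ N + 1 = 2 * m :=
    ⟨(N + 1) / 2, by omega⟩
  · have h1 := (S_even hy i m).2
    rw [← hm] at h1
    have h2 := Int.floor_le ((N : ℝ) * al)
    have h3 : ((S y (i + N) - S y i : ℤ) : ℝ) ≤ (⌊(N : ℝ) * al⌋ : ℝ) + 1 := by exact_mod_cast h1
    linarith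
  · have h1 := (S_even hy i m).2
    rw [← hm, ← add_assoc, S_succ] at h1
    have h2 := Int.floor_le (((N + 1 : ℕ) : ℝ) * al)
    have h3 : ((S y (i + N) - S y i : ℤ) : ℝ) ≤ (⌊((N + 1 : ℕ) : ℝ) * al⌋ : ℝ) + 1 := by
      have h4 : S y (i + N) - S y i ≤ ⌊((N + 1 : ℕ) : ℝ) * al⌋ + 1 := by
        split_ifs at h1 <;> omega
      exact_mod_cast h4
    push_cast at h2 h3 ⊢
    norm_num at hal
    linarith

/-- the heaviness of a window -/
def hv (y : ℕ → Bool) (n : ℕ) (p : ℤ) (i : ℕ) : ℤ := S y (i + n) - S y i - p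

lemma sum_tele (y : ℕ → Bool) (n N : ℕ) :
    ∑ i ∈ Finset.range N, (S y (i + n) - S y i) = ∑ r ∈ Finset.range n, (S y (r + N) - S y r) := by
  induction N with
  | zero => simp
  | succ N ih =>
    rw [Finset.sum_range_succ, ih]
    have h1 : ∀ n : ℕ, ∑ r ∈ Finset.range n, (S y (r + (N + 1)) - S y r) -
        ∑ r ∈ Finset.range n, (S y (r + N) - S y r) = S y (N + n) - S y N := by
      intro n
      induction n with
      | zero => simp
      | succ n ih2 =>
        rw [Finset.sum_range_succ, Finset.sum_range_succ]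
        have e1 : n + (N + 1) = N + (n + 1) := by ring
        have e2 : n + N = N + n := by ring
        rw [e1, e2]
        linarith
    linarith [h1 n]

/-- the mismatch set -/
def mis (y : ℕ → Bool) (i0 n N : ℕ) : Finset ℕ :=
  (Finset.range N).filter fun i => y (i0 + (i + n)) ≠ y (i0 + i)

lemma shift_mem {y : ℕ → Bool} (hy : y ∈ AbClosure X) (i0 : ℕ) :
    (fun k => y (i0 + k)) ∈ AbClosure X := by
  intro i n
  obtain ⟨j, hj⟩ := hy (i0 + i) n
  refine ⟨j, ?_⟩
  rw [← hj]
  congr 1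
  funext k
  simp [fac, add_assoc]

lemma mis_card {y : ℕ → Bool} (hy : y ∈ AbClosure X) (i0 m N : ℕ) :
    ((mis y i0 (2 * m) N).card : ℝ) ≤
      2 * (N * Int.fract (((2 * m : ℕ) : ℝ) * al) + 2 * (2 * m : ℕ)) + 1 := by
  set z : ℕ → Bool := fun k => y (i0 + k) with hz
  have hzm : z ∈ AbClosure X := shift_mem hy i0
  set n := 2 * m with hn
  set p := ⌊((n : ℕ) : ℝ) * al⌋ with hp
  have h01 : ∀ i, 0 ≤ hv z n p i ∧ hv z n p i ≤ 1 := by
    intro i
    have := S_even hzm i m
    rw [← hn, ← hp] at this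
    unfold hv
    constructor <;> omega
  have hsum : ((∑ i ∈ Finset.range N, hv z n p i : ℤ) : ℝ) ≤
      N * Int.fract ((n : ℝ) * al) + 2 * n := by
    have e1 : ∑ i ∈ Finset.range N, hv z n p i =
        ∑ r ∈ Finset.range n, (S z (r + N) - S z r) - N * p := by
      unfold hv
      rw [Finset.sum_sub_distrib, sum_tele]
      simp
    rw [e1]
    push_cast
    have e2 : ∑ r ∈ Finset.range n, ((S z (r + N) : ℝ) - (S z r : ℝ)) ≤
        ∑ r ∈ Finset.range n, ((N : ℝ) * al + 2) := by
      apply Finset.sum_le_sum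
      intro r _
      have := S_upper hzm r N
      push_cast at this
      exact this
    rw [Finset.sum_const, Finset.card_range, nsmul_eq_mul] at e2
    have e3 : (p : ℝ) + Int.fract ((n : ℝ) * al) = n * al := Int.floor_add_fract _
    nlinarith
  have hcard : ((mis y i0 n N).card : ℤ) ≤ 2 * ∑ i ∈ Finset.range N, hv z n p i + 1 := by
    have e1 : ((mis y i0 n N).card : ℤ) ≤
        ∑ i ∈ Finset.range N, (hv z n p i + hv z n p (i + 1)) := by
      unfold mis
      rw [Finset.card_filter]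
      push_cast
      apply Finset.sum_le_sum
      intro i _
      have a1 := h01 i
      have a2 := h01 (i + 1)
      split_ifs with hne
      · have a3 : hv z n p (i + 1) - hv z n p i =
            (if z (i + n) = true then 1 else 0) - (if z i = true then 1 else 0) := by
          unfold hv
          rw [show i + 1 + n = i + n + 1 by ring, S_succ, S_succ]
          ring
        have a4 : z (i + n) ≠ z i := hne
        have a5 : hv z n p (i + 1) ≠ hv z n p i := by
          intro he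
          rw [he, sub_self] at a3
          apply a4
          cases h5 : z (i + n) <;> cases h6 : z i <;> simp [h5, h6] at a3 ⊢
        omega
      · omega
    have e2 : ∑ i ∈ Finset.range N, hv z n p (i + 1) ≤ ∑ i ∈ Finset.range N, hv z n p i + 1 := by
      have := Finset.sum_range_succ' (fun i => hv z n p i) N
      rw [Finset.sum_range_succ] at this
      have b1 := h01 N
      have b2 := h01 0
      linarith
    rw [Finset.sum_add_distrib] at e1
    linarith
  have hcard' : ((mis y i0 n N).card : ℝ) ≤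
      2 * ((∑ i ∈ Finset.range N, hv z n p i : ℤ) : ℝ) + 1 := by exact_mod_cast hcard
  linarith

/-- a block is determined by its first `n` letters and its mismatch set -/
lemma determined {y y' : ℕ → Bool} {i0 i0' n N : ℕ} (hn : 0 < n)
    (h1 : ∀ k < n, y (i0 + k) = y' (i0' + k)) (h2 : mis y i0 n N = mis y' i0' n N) :
    ∀ k < n + N, y (i0 + k) = y' (i0' + k) := by
  intro k
  induction k using Nat.strong_induction_on with
  | _ k ih =>
    intro hk
    rcases Nat.lt_or_ge k n with h | h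
    · exact h1 k h
    · obtain ⟨i, rfl⟩ : ∃ i, k = i + n := ⟨k - n, by omega⟩
      have h3 := ih i (by omega) (by omega)
      have h4 : i ∈ mis y i0 n N ↔ i ∈ mis y' i0' n N := by rw [h2]
      unfold mis at h4
      simp only [Finset.mem_filter, Finset.mem_range, show i < N by omega, true_and] at h4
      rw [h3] at h4
      cases h5 : y (i0 + (i + n)) <;> cases h6 : y' (i0' + (i + n)) <;>
        cases h7 : y' (i0' + i) <;> simp_all

lemma card_bound (m N : ℕ) (hm : 0 < m) {t : ℝ} (ht0 : 0 < t) (ht1 : t ≤ 1) {K : ℝ}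
    (hK : 2 * (N * Int.fract (((2 * m : ℕ) : ℝ) * al) + 2 * (2 * m : ℕ)) + 1 ≤ K) :
    ((SubLang (AbClosure X) (2 * m + N)).ncard : ℝ) ≤
      2 ^ (2 * m) * ((1 + t) ^ N * t ^ (-K)) := by
  classical
  set n := 2 * m with hn
  set A : Finset (Finset ℕ) := (Finset.range N).powerset.filter fun D => (D.card : ℝ) ≤ K with hA
  have hAcard : (A.card : ℝ) ≤ (1 + t) ^ N * t ^ (-K) := by
    have e1 : (A.card : ℝ) * t ^ K ≤ ∑ D ∈ A, t ^ D.card := by
      rw [← nsmul_eq_mul, ← Finset.sum_const]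
      apply Finset.sum_le_sum
      intro D hD
      rw [hA, Finset.mem_filter] at hD
      rw [← Real.rpow_natCast]
      exact Real.rpow_le_rpow_of_exponent_ge ht0 ht1 hD.2
    have e2 : ∑ D ∈ A, t ^ D.card ≤ ∑ D ∈ (Finset.range N).powerset, t ^ D.card := by
      apply Finset.sum_le_sum_of_subset_of_nonneg
      · exact Finset.filter_subset _ _
      · intro D _ _; positivity
    have e3 : ∑ D ∈ (Finset.range N).powerset, t ^ D.card = (1 + t) ^ N := by
      have := Finset.sum_pow_mul_eq_add_pow t 1 (Finset.range N)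
      simp only [one_pow, mul_one, Finset.card_range] at this
      rw [this, add_comm]
    rw [e3] at e2
    rw [Real.rpow_neg ht0.le, ← div_eq_mul_inv, le_div_iff₀ (by positivity)]
    linarith
  let f : (Fin (n + N) → Bool) → (Fin n → Bool) × Finset ℕ := fun w =>
    (fun k => w ⟨k, by omega⟩,
      (Finset.range N).filter fun i => ∃ h : i < N,
        w ⟨i + n, by omega⟩ ≠ w ⟨i, by omega⟩)
  have hmis : ∀ (y : ℕ → Bool) (i0 : ℕ), (f (fac y i0 (n + N))).2 = mis y i0 n N := by
    intro y i0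
    ext i
    show i ∈ Finset.filter _ _ ↔ i ∈ Finset.filter _ _
    rw [Finset.mem_filter, Finset.mem_filter, Finset.mem_range]
    constructor
    · rintro ⟨a, b, c⟩; exact ⟨a, c⟩
    · rintro ⟨a, c⟩; exact ⟨a, a, c⟩
  have hmaps : ∀ w ∈ SubLang (AbClosure X) (n + N),
      f w ∈ ((Finset.univ ×ˢ A : Finset ((Fin n → Bool) × Finset ℕ)) : Set _) := by
    rintro w ⟨y, hy, i0, rfl⟩
    simp only [Finset.coe_product, Finset.coe_univ, Set.mem_prod, Set.mem_univ, true_and,
      Finset.mem_coe]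
    rw [hmis, hA, Finset.mem_filter, Finset.mem_powerset]
    refine ⟨Finset.filter_subset _ _, (mis_card hy i0 m N).trans hK⟩
  have hinj : Set.InjOn f (SubLang (AbClosure X) (n + N)) := by
    rintro w ⟨y, hy, i0, rfl⟩ w' ⟨y', hy', i0', rfl⟩ hff
    have g1 : (f (fac y i0 (n + N))).1 = (f (fac y' i0' (n + N))).1 := by rw [hff]
    have g2 : (f (fac y i0 (n + N))).2 = (f (fac y' i0' (n + N))).2 := by rw [hff]
    rw [hmis, hmis] at g2
    have g3 : ∀ k < n, y (i0 + k) = y' (i0' + k) := by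
      intro k hk
      exact congrFun g1 ⟨k, hk⟩
    have g4 := determined (n := n) (N := N) (by omega) g3 g2
    funext k
    exact g4 k k.2
  have h1 := Set.ncard_le_ncard_of_injOn f hmaps hinj (Finset.finite_toSet _)
  rw [Set.ncard_coe_finset, Finset.card_product, Finset.card_univ] at h1
  have h2 : (Fintype.card (Fin n → Bool) : ℝ) = 2 ^ n := by simp
  have h3 : ((SubLang (AbClosure X) (n + N)).ncard : ℝ) ≤
      (Fintype.card (Fin n → Bool) : ℝ) * A.card := by exact_mod_cast h1
  rw [h2] at h3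
  exact h3.trans (mul_le_mul_of_nonneg_left hAcard (by positivity))

lemma mem_self : X ∈ AbClosure X := fun i _ => ⟨i, rfl⟩

lemma ncard_pos (n : ℕ) : 1 ≤ (SubLang (AbClosure X) n).ncard :=
  (Set.ncard_pos (Set.toFinite _)).mpr ⟨fac X 0 n, X, mem_self, 0, rfl⟩

theorem entropy_zero : HasEntropy (AbClosure X) 0 := by
  unfold HasEntropy
  rw [Metric.tendsto_atTop]
  intro ε' hε'
  -- choose the parameters
  set ε : ℝ := min (ε' / 4) 1 with hεd
  have hε0 : 0 < ε := lt_min (by linarith) one_pos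
  have hε1 : ε ≤ 1 := min_le_right _ _
  have hε4 : 4 * ε ≤ ε' := by have := min_le_left (ε' / 4) 1; linarith
  set L : ℝ := -Real.log ε with hL
  have hL0 : 0 ≤ L := by rw [hL]; linarith [Real.log_nonpos hε0.le hε1]
  have hβ : Irrational (2 * al) := by
    exact_mod_cast al_irr.natCast_mul (m := 2) (by norm_num)
  obtain ⟨⟨m, hm, hm1, hm2⟩, -⟩ := exists_small hβ (η := ε / (2 * (L + 1))) (by positivity)
  have hconv : ((2 * m : ℕ) : ℝ) * al = (m : ℝ) * (2 * al) := by push_cast; ring
  rw [← hconv] at hm1 hm2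
  set δ := Int.fract (((2 * m : ℕ) : ℝ) * al) with hδ
  have hδL : 2 * δ * L ≤ ε := by
    rw [lt_div_iff₀ (by positivity)] at hm2
    nlinarith
  -- the constant
  set C : ℝ := (2 * m : ℕ) * Real.log 2 + (4 * (2 * m : ℕ) + 1) * L with hC
  have hC0 : 0 ≤ C := by
    have := Real.log_nonneg (show (1 : ℝ) ≤ 2 by norm_num)
    positivity
  have key : ∀ N : ℕ, Real.log ((SubLang (AbClosure X) (2 * m + N)).ncard : ℝ) ≤
      C + 2 * ε * N := by
    intro N
    have h1 := card_bound m N hm hε0 hε1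
      (K := 2 * (N * δ + 2 * (2 * m : ℕ)) + 1) le_rfl
    have hpos : (0 : ℝ) < ((SubLang (AbClosure X) (2 * m + N)).ncard : ℝ) := by
      have := ncard_pos (2 * m + N)
      exact_mod_cast this
    have h2 := Real.log_le_log hpos h1
    rw [Real.log_mul (by positivity) (by positivity), Real.log_mul (by positivity) (by positivity),
      Real.log_pow, Real.log_pow, Real.log_rpow hε0] at h2
    have h3 : Real.log (1 + ε) ≤ ε := by
      have := Real.log_le_sub_one_of_pos (show 0 < 1 + ε by linarith)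
      linarith
    have h4 : (N : ℝ) * Real.log (1 + ε) ≤ N * ε := mul_le_mul_of_nonneg_left h3 (by positivity)
    have h5 : -(2 * (N * δ + 2 * ((2 * m : ℕ) : ℝ)) + 1) * Real.log ε =
        N * (2 * δ * L) + (4 * (2 * m : ℕ) + 1) * L := by rw [hL]; ring
    have h6 : (N : ℝ) * (2 * δ * L) ≤ N * ε := mul_le_mul_of_nonneg_left hδL (by positivity)
    rw [h5] at h2
    rw [hC]
    linarith
  obtain ⟨M, hM⟩ := exists_nat_gt (C / ε)
  refine ⟨2 * m + M + 1, fun n hn => ?_⟩
  obtain ⟨N, rfl⟩ : ∃ N, n = 2 * m + N := ⟨n - 2 * m, by omega⟩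
  have hn0 : (0 : ℝ) < ((2 * m + N : ℕ) : ℝ) := by
    have : 0 < 2 * m + N := by omega
    exact_mod_cast this
  rw [Real.dist_eq, sub_zero]
  have hlog0 : 0 ≤ Real.log ((SubLang (AbClosure X) (2 * m + N)).ncard : ℝ) := by
    apply Real.log_nonneg
    exact_mod_cast ncard_pos (2 * m + N)
  rw [abs_of_nonneg (div_nonneg hlog0 hn0.le), div_lt_iff₀ hn0]
  have h1 := key N
  rw [div_lt_iff₀ hε0] at hM
  have hNM : (M : ℝ) ≤ ((2 * m + N : ℕ) : ℝ) := by
    have : M ≤ 2 * m + N := by omega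
    exact_mod_cast this
  have hN2 : (N : ℝ) ≤ ((2 * m + N : ℕ) : ℝ) := by
    have : N ≤ 2 * m + N := by omega
    exact_mod_cast this
  calc Real.log ((SubLang (AbClosure X) (2 * m + N)).ncard : ℝ)
      ≤ C + 2 * ε * N := h1
    _ < M * ε + 2 * ε * ((2 * m + N : ℕ) : ℝ) := by nlinarith
    _ ≤ 3 * ε * ((2 * m + N : ℕ) : ℝ) := by nlinarith
    _ ≤ ε' * ((2 * m + N : ℕ) : ℝ) := by nlinarith

/-- **Negative answer.** There is a uniformly recurrent, aperiodic, non-Sturmian binary word `x`,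
with irrational letter frequency, whose abelian closure has topological entropy `0`. -/
theorem result : ∃ x : ℕ → Bool, UniformlyRecurrent x ∧ Aperiodic x ∧ ¬ Sturmian x ∧
    (∃ α : ℝ, Irrational α ∧ HasFreq x α) ∧ HasEntropy (AbClosure x) 0 :=
  ⟨X, uniform, aper, not_sturmian, ⟨al, al_irr, freq⟩, entropy_zero⟩

end Pool.Agent.Results.MP_1706f7_co.ZeroEntropy
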